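import Pool.Agent.H20RD.HardPP
import Pool.Agent.H20RD.EasyPP

/-!
# Random oracles of every density: when is `PP` the union of `NP` and `coNP`?
-/

set_option autoImplicit false

namespace Pool.Agent.Results.MP_153864_lc.FirstInclusionThreshold

open Pool.Agent.H620R2.Gauge Pool.Agent.H20RD MeasureTheory Filter Asymptotics

/-- Let every string of length `n` be in the random oracle `A` with probability `p n`,
independently, where `p` is an arbitrary sequence.

If the series `∑ 2 ^ n * min (p n) (1 - p n)` diverges then, for every oracle `O`, every function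
`t` with `t n = o(n)` and almost every `A`, relative to the disjoint union of `O` and `A` there is a
language `L` in `PP` such that neither `L` nor its complement is decided in nondeterministic time
`2 ^ O(t n)`, or by quantum Merlin-Arthur games with running time `2 ^ O(t n)`.

There is an oracle `O` such that, for every `p` for which the series converges and for almost every
`A`, relative to the disjoint union of `O` and `A` the classes `PP` and `P` are equal (so that `PP`
is the union of `NP` and `coNP`). -/
theorem result :
    (∀ (O : Oracle) (p : ℕ → unitInterval) (t : ℕ → ℕ),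
      ¬ Summable (fun n => 2 ^ n * min (p n : ℝ) (1 - p n)) →
      ((fun n => (t n : ℝ)) =o[atTop] fun n => (n : ℝ)) →
      ∀ᵐ A ∂(rnd fun x => p x.length), ∃ L : Set (List Bool), IsPP (join O A) L ∧
        ¬ IsNTime t (join O A) L ∧ ¬ IsNTime t (join O A) Lᶜ ∧
        ¬ IsQMATime t (join O A) L ∧ ¬ IsQMATime t (join O A) Lᶜ) ∧
    ∃ O : Oracle, ∀ p : ℕ → unitInterval,
      Summable (fun n => 2 ^ n * min (p n : ℝ) (1 - p n)) →
      ∀ᵐ A ∂(rnd fun x => p x.length), ∀ L : Set (List Bool),
        IsPP (join O A) L ↔ IsP (join O A) L := by
  refine ⟨fun O p t h ht => hard_pp O p t ht h, ?_⟩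
  obtain ⟨O, hO⟩ := easy_pp
  refine ⟨O, fun p hp => ?_⟩
  filter_upwards [hO p hp] with A hA L
  exact ⟨hA L, isPP_of_isP⟩

end Pool.Agent.Results.MP_153864_lc.FirstInclusionThreshold
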