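import Pool.Agent.H20NE.Fin

/-!
# The exact numbers of changes of an oracle which make the inclusions
`NP ∪ coNP ⊆ PP ⊆ PSPACE` proper
-/

set_option autoImplicit false

namespace Pool.Agent.Results.MP_153864_lc.NumberOfChanges

open Filter Pool.Agent.H620R2.Gauge
open Pool.Agent.W900.CH (Close)
open Pool.Agent.W900.RB (Super)
open Pool.Agent.H20RD (IsPP IsQMA IsParityP)

/-- `Close g O A` says that, for all large `n`, the oracles `O` and `A` differ in at most `g n`
strings of length at most `n`; `Super g` says that the infimum of the numbers `g m`, `m ≥ n`, is
not polynomially bounded in `n`.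

First inclusion: if `g n` tends to infinity, however slowly, then near every oracle `O`, within the
distance `g`, there is an oracle `A` relative to which some language `L` in `PP` is such that
neither `L` nor its complement is in `NP`, and not even in `QMA`. This is exact: there is an
oracle `O` such that `PP` is contained in `P` relative to every `A` within the distance `g` of `O`,
for every `g` which does not tend to infinity.

Second inclusion: if `Super g` then near every oracle `O`, within the distance `g`, there is an
oracle `A` relative to which some language in `PSPACE`, even in `⊕P`, is not in `PP`. This is exact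
as well: there is an oracle `O` such that `PSPACE` is contained in `PP` relative to every `A`
within the distance `g` of `O`, for every `g` without `Super g`. -/
theorem result :
    ((∀ g : ℕ → ℝ, Tendsto g atTop atTop → ∀ O : Oracle, ∃ A : Oracle, Close g O A ∧
        ∃ L : Set (List Bool), IsPP A L ∧ ¬ IsNP A L ∧ ¬ IsNP A Lᶜ ∧ ¬ IsQMA A L ∧
          ¬ IsQMA A Lᶜ) ∧
      ∃ O : Oracle, ∀ g : ℕ → ℝ, ¬ Tendsto g atTop atTop → ∀ A : Oracle, Close g O A →
        ∀ L : Set (List Bool), IsPP A L → IsP A L) ∧
    ((∀ g : ℕ → ℝ, Super g → ∀ O : Oracle, ∃ A : Oracle, Close g O A ∧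
        ∃ L : Set (List Bool), IsPSPACE A L ∧ IsParityP A L ∧ ¬ IsPP A L) ∧
      ∃ O : Oracle, ∀ g : ℕ → ℝ, ¬ Super g → ∀ A : Oracle, Close g O A →
        ∀ L : Set (List Bool), IsPSPACE A L → IsPP A L) :=
  Pool.Agent.H20NE.final

end Pool.Agent.Results.MP_153864_lc.NumberOfChanges
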