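import Pool.Agent.H20RD.HardPS
import Pool.Agent.H20RD.AeSparse

/-!
# Random oracles of every density: when is `PP` equal to `PSPACE`?
-/

set_option autoImplicit false

namespace Pool.Agent.Results.MP_153864_lc.SecondInclusionThreshold

open Pool.Agent.H620R2.Gauge Pool.Agent.H20RD MeasureTheory

/-- Let every string of length `n` be in the random oracle `A` with probability `p n`,
independently, where `p` is an arbitrary sequence, and let `μ n = 2 ^ n * min (p n) (1 - p n)`.

If `μ n` is not bounded by a polynomial in `n + 2 ^ t n`, where `t` is any function (for example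
`t = 0`), then for every oracle `O` and almost every `A`, relative to the disjoint union of `O` and
`A` there is a language in `PSPACE`, and even in `⊕P`, which is not in `PP` and not decided in
probabilistic time `2 ^ O(t n)` with unbounded error.

There is an oracle `O` such that, for every `p` for which `μ n` is bounded by a polynomial in `n`
and for almost every `A`, relative to the disjoint union of `O` and `A` every language in `PSPACE`
is in `PP`. -/
theorem result :
    (∀ (O : Oracle) (p : ℕ → unitInterval) (t : ℕ → ℕ),
      (¬ ∃ q : Polynomial ℕ, ∀ n,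
        2 ^ n * min (p n : ℝ) (1 - p n) ≤ (q.eval (n + 2 ^ t n) : ℕ)) →
      ∀ᵐ A ∂(rnd fun x => p x.length), ∃ L : Set (List Bool), IsPSPACE (join O A) L ∧
        IsParityP (join O A) L ∧ ¬ IsPP (join O A) L ∧ ¬ IsPPTime t (join O A) L) ∧
    ∃ O : Oracle, ∀ p : ℕ → unitInterval,
      (∃ q : Polynomial ℕ, ∀ n, 2 ^ n * min (p n : ℝ) (1 - p n) ≤ (q.eval n : ℕ)) →
      ∀ᵐ A ∂(rnd fun x => p x.length), ∀ L : Set (List Bool),
        IsPSPACE (join O A) L → IsPP (join O A) L :=
  ⟨fun O p t h => hard_ps O p t h, easy_ps⟩

end Pool.Agent.Results.MP_153864_lc.SecondInclusionThreshold
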