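import Pool.Agent.H5Thr.Low3
import Pool.Agent.H5Thr.Up2
import Pool.Agent.H5Thr.Exp
import Pool.Agent.H5Thr.Plc
import Pool.Agent.H5Thr.Num
import Pool.Agent.H5Thr.Prd
import Pool.Agent.H5Thr.Jn
import Pool.Agent.H5Thr.Js
import Pool.Agent.H5Thr.Cov
import Pool.Agent.H5Thr.Sum
import Pool.Agent.H5Thr.Cir
import Pool.Agent.H5Thr.Sml
import Pool.Agent.H5Thr.Cr2

/-!
# The complexity of every threshold, between the NP question and the coNP question

The complete problem of Gill and Simon for PP is: does the formula `F` have at least `T` satisfying
assignments? For `T = 1` this is the NP question, for `T = 2 ^ n` it is the coNP question. We consider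
monotone 2-CNF formulas without unit clauses, that is, simple graphs on the set `X` of the `n` variables
(clauses `p ∨ q` for the edges), for which the NP question and the coNP question are both trivial; more
precisely the number `numSat x` of satisfying assignments is at least `n + 1`. We determine the complexity
of every threshold `T` for circuits with a symmetry. It is measured by the distance of `T` from the two
trivial ends, `h = min (log (T - n)) (n - log T)`.

The circuits have symmetric gates (arbitrary functions of the multiset of the labelled values of the
wires) and matrix gates (arbitrary functions of matrices over fields of characteristic different from two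
which are invariant under orthogonal changes of basis, such as the determinant or the rank), and the
commutative group `K4 ^ B` acts on the circuit, where `B` is the number of disjoint blocks of four
variables.

(1) For `h ≥ t` at least `(B / (c t)) ^ (t / c)` gates and rows are necessary. This holds for all thresholds,
with further inputs that are fixed by the group and all acceptance conditions that quantify over them (for
instance nondeterministic and co-nondeterministic circuits with guesses that are fixed by the group), and
also if the circuit only has to distinguish between `numSat x ≥ T` and
`T - numSat x ≥ 2 ^ (- t) (T - n)`.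

(2) For `h ≤ t` there is a circuit with symmetric gates only of size `(n + 2) ^ (12 t + 5)` on which every
commutative group of permutations of `X` acts.

So the complexity is `n ^ Θ(h)` for `h ≤ n ^ (1 - ε)` and exponential for `h` linear in `n`, and it is
polynomial exactly for the thresholds at bounded distance from the NP end or from the coNP end.

Proof ideas. (1): `24 κ` blocks, `κ` proportional to `t`, carry a graph `G (σ, w)` made from a bipartite
cubic graph `σ` with edge parameters `w`; `σ` is chosen such that a functional of medium weight depends
on many of the blocks. The place of the blocks is random: if the circuit is small no functional of medium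
weight is seen by a gate, so the circuit does not see the parity of the sum of `w`, which changes the
number of satisfying assignments by a factor `1 - 2 ^ (- O(κ))`. The other variables are used to move
this gap to the threshold `T`: some of them carry a graph with a prescribed number of satisfying
assignments, some are free, some are joined to all others.
(2): If `numSat x ≥ 2 ^ (n - t)`, the clauses have a cover by `6 t` variables; if
`numSat x ≤ n + 2 ^ t`, all independent sets have at most `t + 2` elements.
-/

set_option autoImplicit false

namespace Pool.Agent.Results.MP_153864_lc.ThresholdCounting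

open Pool.Agent.H5Sym Pool.Agent.H5Lin Pool.Agent.H5Thr Equiv

universe u v

/-- **Theorem.** `numSat x` is the number of the satisfying assignments of the monotone 2-CNF formula with
the variables `X`, `n = |X|`, and the clauses `p ∨ q` for the edges `(p, q)` of the graph `x` (symmetric,
without loops).
(1) There is a constant `c` such that the following holds for all embeddings `e` of `β × K4` into `X`, that
is, `B = |β|` disjoint blocks of four variables, all `t` with `c ≤ t` and `c t ≤ B`, and all thresholds `T`
with `n + 2 ^ t ≤ T ≤ 2 ^ (n - t)`. Let a circuit with symmetric gates and matrix gates (no field of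
characteristic two) with the inputs `X × X` and further inputs `G` be given, on which the group `β → K4` acts
such that it permutes the variables by translations of the blocks and fixes the inputs in `G`. Suppose that
with some acceptance condition for the function that maps the values of the inputs in `G` to the output it
accepts all `x` with `numSat x ≥ T` and rejects all `x` with `T - numSat x ≥ 2 ^ (- t) (T - n)`. Then the
number `s` of gates and rows satisfies `B ^ t ≤ (c t) ^ t * s ^ c`.
(2) If `T ≤ n + 2 ^ t` or `T ≥ 2 ^ (n - t)` there is a circuit with symmetric gates only, of size at most
`(n + 2) ^ (12 t + 5)`, on which every commutative group of permutations of `X` acts, and which accepts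
exactly the graphs `x` with `numSat x ≥ T`. -/
theorem result :
    (∃ c : ℕ, 0 < c ∧ ∀ (β X : Type) [Finite X] (e : β × K4 ↪ X) (t T : ℕ), c ≤ t →
      c * t ≤ Nat.card β → Nat.card X + 2 ^ t ≤ T → T * 2 ^ t ≤ 2 ^ Nat.card X →
      ∀ (G : Type) (D : Type u) (C : LCircuit.{0, u} ((X × X) ⊕ G) D) [Finite C.Gate],
        C.OddFields → ∀ (inp : Bool → D) (acc : ((G → D) → D) → Prop),
        Nonempty (C.Action fun v : β → K4 =>
          Equiv.sumCongr (pairPerm ((blockShift v).viaEmbedding e)) (Equiv.refl G)) →
        (∀ x : X × X → Bool, (∀ p q, x (p, q) = x (q, p)) → (∀ p, x (p, p) = false) →
          (T ≤ numSat x → acc (fun y => C.eval (Sum.elim (inp ∘ x) y) C.out)) ∧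
          (numSat x * 2 ^ t + (T - Nat.card X) ≤ T * 2 ^ t →
            ¬ acc (fun y => C.eval (Sum.elim (inp ∘ x) y) C.out))) →
        Nat.card β ^ t ≤ (c * t) ^ t * C.size ^ c) ∧
    ∀ (X : Type) [Finite X] (t T : ℕ),
      (T ≤ Nat.card X + 2 ^ t ∨ 2 ^ Nat.card X ≤ T * 2 ^ t) →
      ∃ C : LCircuit.{0, 0} (X × X) ℕ, Finite C.Gate ∧
        (∀ g, (∃ t, C.label g = .input t) ∨ ∃ f, C.label g = .sym f) ∧
        C.size ≤ (Nat.card X + 2) ^ (12 * t + 5) ∧
        (∀ (V : Type v) [AddCommGroup V] (θ : V → Perm X), (∀ v w, θ (v + w) = θ v * θ w) →
          Nonempty (C.Action fun v => pairPerm (θ v))) ∧
        ∀ x : X × X → Bool, (∀ p q, x (p, q) = x (q, p)) → (∀ p, x (p, p) = false) →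
          (C.eval (fun t => if x t then 1 else 0) C.out = 1 ↔ T ≤ numSat x) :=
  ⟨thr_low3 t_EXP t_PLC t_NUM t_PRD t_JN t_JS,
    fun X _ t T hT => thr_up2 t_COV t_SUM t_CIR t_SML t_CR2 X t T hT⟩

end Pool.Agent.Results.MP_153864_lc.ThresholdCounting
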